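import Pool.Agent.helper83.GR.Spec

/-!
# Part CNT of project gr (MP_baa4d7_al)

Counting fixed characters.
-/

set_option autoImplicit false

namespace Pool.Agent.GR

open Pool.Agent.helper58.DC Pool.Agent.DI

theorem CNT (hGLI : GLI_stmt) (hGLP : GLP_stmt) (hIF : IF_stmt) (hB2 : B2_stmt) : CNT_stmt := by
  classical
  intro p M G _ _ H χ α σ s hα hEx
  obtain ⟨hfin, hB⟩ := hB2 G H
  have hSfin : (Blk M χ H).Finite := hfin.subset fun ψ hψ => hψ.1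
  have hφ : ∀ ψ ∈ IrrOn H, funMap α (galMap σ ψ) ∈ IrrOn H := by
    intro ψ hψ
    have h1 := ((hIF G H).2 _ (hGLI G H σ ψ hψ)).2.2 α
    rwa [hα] at h1
  have hφe : ∀ ψ ∈ IrrOn H, ∀ g, funMap α (galMap σ ψ) g = ψ ((α⁻¹ g) ^ s) := by
    intro ψ hψ g
    exact hGLP G σ s hEx.cop hEx.act H ψ hψ (α⁻¹ g)
  set FH : Finset G := (Set.toFinite (H : Set G)).toFinset with hFH
  set FS : Finset (G → ℂ) := hSfin.toFinset with hFS
  have h1 : ∑ᶠ g ∈ (H : Set G), Sf (Blk M χ H) ((α⁻¹ g) ^ s) g =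
      ∑ g ∈ FH, ∑ ψ ∈ FS, ψ ((α⁻¹ g) ^ s) * ψ g⁻¹ := by
    rw [finsum_mem_eq_finite_toFinset_sum _ (Set.toFinite _)]
    refine Finset.sum_congr rfl fun g _ => ?_
    unfold Sf
    rw [finsum_mem_eq_finite_toFinset_sum _ hSfin]
  have h2 : ∀ ψ ∈ FS, ∑ g ∈ FH, ψ ((α⁻¹ g) ^ s) * ψ g⁻¹ =
      if funMap α (galMap σ ψ) = ψ then (Nat.card H : ℂ) else 0 := by
    intro ψ hψ
    have hψ' : ψ ∈ IrrOn H := ((Set.Finite.mem_toFinset hSfin).1 hψ).1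
    have h3 := (hB _ (hφ ψ hψ')).2.2.2.2 ψ hψ'
    have h4 : ∑ᶠ g : G, funMap α (galMap σ ψ) g * ψ g⁻¹ =
        ∑ g ∈ FH, funMap α (galMap σ ψ) g * ψ g⁻¹ := by
      apply finsum_eq_sum_of_support_subset
      intro g hg
      rw [Function.mem_support] at hg
      rw [hFH, Set.Finite.coe_toFinset]
      by_contra hgH
      exact hg (by rw [(hB _ (hφ ψ hψ')).2.2.2.1 g hgH, zero_mul])
    rw [h4] at h3
    have h5 : ∑ g ∈ FH, ψ ((α⁻¹ g) ^ s) * ψ g⁻¹ =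
        ∑ g ∈ FH, funMap α (galMap σ ψ) g * ψ g⁻¹ :=
      Finset.sum_congr rfl fun g _ => by rw [hφe ψ hψ' g]
    rw [h5, h3]
  rw [h1, Finset.sum_comm, Finset.sum_congr rfl h2, ← Finset.sum_filter, Finset.sum_const,
    nsmul_eq_mul, mul_comm]
  congr 2
  unfold cnt
  have h6 : {ψ : G → ℂ | ψ ∈ Blk M χ H ∧ funMap α (galMap σ ψ) = ψ} =
      ((FS.filter fun ψ => funMap α (galMap σ ψ) = ψ : Finset (G → ℂ)) : Set (G → ℂ)) := by
    ext ψ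
    simp [hFS]
  have h7 : Nat.card {ψ : G → ℂ // ψ ∈ Blk M χ H ∧ funMap α (galMap σ ψ) = ψ} =
      Set.ncard {ψ : G → ℂ | ψ ∈ Blk M χ H ∧ funMap α (galMap σ ψ) = ψ} := rfl
  rw [h7, h6, Set.ncard_coe_finset]

end Pool.Agent.GR
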