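import Pool.Agent.helper83.GR.Spec

/-!
# Part GLS of project gr (MP_baa4d7_al)

Exponents.
-/

set_option autoImplicit false

namespace Pool.Agent.GR

open Pool.Agent.helper58.DC Pool.Agent.DI

theorem GLS : GLS_stmt := by
  intro p n σ hp hn
  have key : ∃ s : ℕ, s.Coprime n ∧ ∀ ζ : ℂ, ζ ^ n = 1 → σ ζ = ζ ^ s := by
    have hζ : IsPrimitiveRoot (Complex.exp (2 * Real.pi * Complex.I / n)) n :=
      Complex.isPrimitiveRoot_exp n hn.ne'
    set ζ₀ : ℂ := Complex.exp (2 * Real.pi * Complex.I / n) with hζ₀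
    have hσ : IsPrimitiveRoot (σ ζ₀) n :=
      hζ.map_of_injective (f := σ) σ.injective
    haveI : NeZero n := ⟨hn.ne'⟩
    obtain ⟨i, -, hi⟩ := hζ.eq_pow_of_pow_eq_one hσ.pow_eq_one
    refine ⟨i, ?_, ?_⟩
    · rw [← hi] at hσ
      exact (hζ.pow_iff_coprime hn i).1 hσ
    · intro ζ hζ1
      obtain ⟨j, -, hj⟩ := hζ.eq_pow_of_pow_eq_one hζ1
      rw [← hj, map_pow, ← hi, ← pow_mul, ← pow_mul, mul_comm]
  refine ⟨key, fun hP => ?_⟩
  obtain ⟨s, hs, hact⟩ := key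
  refine ⟨s, hs, hact, fun m hm hpm => ?_⟩
  have hm0 : 0 < m := Nat.pos_of_dvd_of_pos hm hn
  obtain ⟨k, hk⟩ := hm
  have hζ : IsPrimitiveRoot (Complex.exp (2 * Real.pi * Complex.I / n)) n :=
    Complex.isPrimitiveRoot_exp n hn.ne'
  have h1 : IsPrimitiveRoot ((Complex.exp (2 * Real.pi * Complex.I / n)) ^ k) m :=
    hζ.pow hn (by rw [hk, mul_comm])
  set ζ : ℂ := (Complex.exp (2 * Real.pi * Complex.I / n)) ^ k with hζd
  have h2 : ζ ^ n = 1 := by rw [hk, pow_mul, h1.pow_eq_one, one_pow]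
  have h3 : σ ζ = ζ := by
    apply hP ζ h2
    rw [← h1.eq_orderOf, zero_add, pow_one]
    exact hpm
  have h4 : ζ ^ s = ζ := by rw [← hact ζ h2, h3]
  have h5 : ζ ^ (s + (m - 1)) = 1 := by
    rw [pow_add, h4, ← pow_succ', Nat.sub_add_cancel hm0, h1.pow_eq_one]
  have h6 : m ∣ s + (m - 1) := (h1.pow_eq_one_iff_dvd _).1 h5
  have h7 : s + (m - 1) ≡ 1 + (m - 1) [MOD m] := by
    have h8 : 1 + (m - 1) = m := by omega
    rw [h8]
    exact ((Nat.modEq_zero_iff_dvd.2 h6).trans (Nat.modEq_zero_iff_dvd.2 dvd_rfl).symm)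
  exact Nat.ModEq.add_right_cancel' _ h7

end Pool.Agent.GR
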